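import Mathlib
import Pool.Agent.R838.KS.Stm

/-!
# Project KS, package FIB: compact codes for an aperiodic countable Borel equivalence relation
-/

set_option autoImplicit false

namespace Pool.Agent.U61.KS

open Set Topology Filter Pool.Agent.R838.KS

section index

variable {X : Type} [MeasurableSpace X] [StandardBorelSpace X]

/-- A Borel choice of an index. -/
theorem exists_index (s : ℕ → X → X) (hs : ∀ n, Measurable (s n)) (ρ : X → ℕ) (hρ : Measurable ρ)
    (f : X → X) (hf : Measurable f) (h : ∀ x, ρ x = 0 → ∃ n, s n x = f x) :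
    ∃ I : X → ℕ, Measurable I ∧ ∀ x, ρ x = 0 → s (I x) x = f x := by
  classical
  have hex : ∀ x, ∃ N, (ρ x = 0 → s N x = f x) := by
    intro x
    by_cases hx : ρ x = 0
    · obtain ⟨n, hn⟩ := h x hx
      exact ⟨n, fun _ => hn⟩
    · exact ⟨0, fun h' => absurd h' hx⟩
  refine ⟨fun x => Nat.find (hex x), measurable_find hex ?_, fun x hx => Nat.find_spec (hex x) hx⟩
  intro k
  have h1 : {x | ρ x = 0 → s k x = f x} = {x | ρ x = 0}ᶜ ∪ {x | s k x = f x} := by
    ext x
    simp only [mem_ofPred_eq, mem_union, mem_compl_iff]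
    tauto
  rw [h1]
  exact (hρ (measurableSet_singleton 0)).compl.union (measurableSet_eq_fun (hs k) hf)

/-- A Borel bound of the indices. -/
theorem exists_bound (s : ℕ → X → X) (hs : ∀ n, Measurable (s n)) (hinv : ∀ n x, s n (s n x) = x)
    (ρ : X → ℕ) (hρ : Measurable ρ) (f : X → X) (hf : Measurable f) (I : X → ℕ)
    (hI : Measurable I) (hIf : ∀ x, ρ x = 0 → s (I x) x = f x)
    (hfin : ∀ y, {x | ρ x = 0 ∧ f x = y}.Finite) :
    ∃ N : X → ℕ, Measurable N ∧ ∀ x, ρ x = 0 → I x ≤ N (f x) := by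
  classical
  have hex : ∀ y, ∃ N : ℕ, ∀ i, N < i → ¬ (ρ (s i y) = 0 ∧ f (s i y) = y ∧ I (s i y) = i) := by
    intro y
    obtain ⟨N, hN⟩ := ((hfin y).image I).bddAbove
    refine ⟨N, fun i hi h => ?_⟩
    have := hN ⟨s i y, ⟨h.1, h.2.1⟩, h.2.2⟩
    omega
  refine ⟨fun y => Nat.find (hex y), measurable_find hex ?_, ?_⟩
  · intro k
    have h1 : {y | ∀ i, k < i → ¬ (ρ (s i y) = 0 ∧ f (s i y) = y ∧ I (s i y) = i)} =
        ⋂ i, ⋂ (_ : k < i), ({y | ρ (s i y) = 0} ∩ ({y | f (s i y) = y} ∩ {y | I (s i y) = i}))ᶜ := by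
      ext y
      simp only [mem_ofPred_eq, mem_iInter, mem_compl_iff, mem_inter_iff]
    rw [h1]
    refine MeasurableSet.iInter fun i => MeasurableSet.iInter fun _ => MeasurableSet.compl ?_
    exact (((hρ.comp (hs i)) (measurableSet_singleton 0))).inter
      ((measurableSet_eq_fun (hf.comp (hs i)) measurable_id).inter
        ((hI.comp (hs i)) (measurableSet_singleton i)))
  · intro x hx
    by_contra hlt
    refine Nat.find_spec (hex (f x)) (I x) (not_le.1 hlt) ?_
    have h2 : s (I x) (f x) = x := by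
      rw [← hIf x hx, hinv]
    rw [h2]
    exact ⟨hx, rfl, rfl⟩

end index

section limits

variable {X : Type} [TopologicalSpace X] {C : Type} [TopologicalSpace C] [T2Space C]

theorem exists_ultrafilter_image {Y : Type} [TopologicalSpace Y] {f : X → Y} {S : Set X} {l : Y}
    (hl : l ∈ closure (f '' S)) : ∃ U : Ultrafilter X, S ∈ U ∧ Tendsto f U (𝓝 l) := by
  have h1 : (𝓝 l ⊓ 𝓟 (f '' S)).NeBot := mem_closure_iff_clusterPt.1 hl
  have h2 : (comap f (𝓝 l ⊓ 𝓟 (f '' S)) ⊓ 𝓟 S).NeBot :=
    comap_inf_principal_neBot_of_image_mem h1 (mem_inf_of_right (mem_principal_self _))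
  refine ⟨Ultrafilter.of (comap f (𝓝 l ⊓ 𝓟 (f '' S)) ⊓ 𝓟 S), ?_, ?_⟩
  · exact (Ultrafilter.of_le (comap f (𝓝 l ⊓ 𝓟 (f '' S)) ⊓ 𝓟 S)) (mem_inf_of_right
      (mem_principal_self _))
  · have h3 : (↑(Ultrafilter.of (comap f (𝓝 l ⊓ 𝓟 (f '' S)) ⊓ 𝓟 S)) : Filter X) ≤
        comap f (𝓝 l) :=
      (Ultrafilter.of_le _).trans (inf_le_left.trans (comap_mono inf_le_left))
    exact tendsto_iff_comap.2 h3

theorem eventually_eq_of_tendsto {A : Type} {F : Filter A} {f : A → X} {x : X} {N : X → ℕ}
    (hN : Continuous N) (h : Tendsto f F (𝓝 x)) : ∀ᶠ a in F, N (f a) = N x := by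
  have h1 : Tendsto (fun a => N (f a)) F (𝓝 (N x)) := (hN.tendsto x).comp h
  rw [nhds_discrete, tendsto_pure] at h1
  exact h1

/-- The sequences in the closure. -/
theorem seq_limit {κ : X → C} (hκ : IsEmbedding κ) {s : ℕ → X → X} (hs : ∀ n, Continuous (s n))
    (hinv : ∀ n x, s n (s n x) = x) {ρ : X → ℕ} (hρ : Continuous ρ) {N I : ℕ → X → ℕ}
    (hN : ∀ n, Continuous (N n)) (hI : ∀ n, Continuous (I n)) {g : ℕ → X → X}
    (hIg : ∀ n x, ρ x = 0 → s (I n x) x = g n x) (hNg : ∀ n x, ρ x = 0 → I n x ≤ N n (g n x))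
    {l : ℕ → C} (hl : l ∈ closure ((fun x n => κ (g n x)) '' {x | ρ x = 0})) (n : ℕ) {x : X}
    (hx : κ x = l n) : ∃ i, ρ (s i x) = 0 ∧ ∀ m, κ (g m (s i x)) = l m := by
  obtain ⟨U, hU, hlim⟩ := exists_ultrafilter_image hl
  have hlim' : ∀ m, Tendsto (fun x' => κ (g m x')) U (𝓝 (l m)) := tendsto_pi_nhds.1 hlim
  have hU' : ∀ᶠ x' in (U : Filter X), ρ x' = 0 := hU
  have hg : Tendsto (g n) U (𝓝 x) := by
    rw [hκ.tendsto_nhds_iff]
    have := hlim' n
    rw [← hx] at this
    exact this
  have hNx : ∀ᶠ x' in (U : Filter X), N n (g n x') = N n x := eventually_eq_of_tendsto (hN n) hg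
  have hle : ∀ᶠ x' in (U : Filter X), I n x' ≤ N n x := by
    filter_upwards [hNx, hU'] with x' h1 h2
    rw [← h1]
    exact hNg n x' h2
  obtain ⟨i, -, hi⟩ := Ultrafilter.eq_pure_of_finite_mem (f := U.map (I n))
    (Set.finite_Iic (N n x)) hle
  have hi' : ∀ᶠ x' in (U : Filter X), I n x' = i := by
    have h1 : {i} ∈ U.map (I n) := by
      rw [hi]
      exact mem_pure.2 rfl
    exact h1
  -- the points converge
  have hid : Tendsto (fun x' : X => x') U (𝓝 (s i x)) := by
    refine Tendsto.congr' ?_ (((hs i).tendsto x).comp hg)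
    filter_upwards [hi', hU'] with x' h1 h2
    simp only [Function.comp]
    rw [← hIg n x' h2, h1, hinv]
  have h0 : ρ (s i x) = 0 := by
    have h1 := eventually_eq_of_tendsto hρ hid
    obtain ⟨x', h2, h3⟩ := (h1.and hU').exists
    rw [← h2, h3]
  refine ⟨i, h0, fun m => ?_⟩
  have h1 : Tendsto (fun x' => κ (g m x')) U (𝓝 (κ (g m (s i x)))) := by
    rw [← hIg m (s i x) h0]
    refine Tendsto.congr' ?_ ((hκ.continuous.tendsto _).comp
      (((hs (I m (s i x))).tendsto (s i x)).comp hid))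
    filter_upwards [eventually_eq_of_tendsto (hI m) hid, hU'] with x' h2 h3
    simp only [Function.comp]
    rw [← h2, hIg m x' h3]
  exact tendsto_nhds_unique h1 (hlim' m)

/-- The pieces of the relation. -/
theorem pair_limit {κ : X → C} (hκ : IsEmbedding κ) {s : X → X} (hs : Continuous s)
    (hinv : ∀ x, s (s x) = x) {ρ : X → ℕ} (hρ : Continuous ρ) {n m : ℕ} {c c' : C}
    (h : (c, c') ∈ closure {p : C × C | ∃ x, ρ x = n ∧ ρ (s x) = m ∧ p = (κ x, κ (s x))}) :
    (∀ x, κ x = c → κ (s x) = c' ∧ ρ (s x) = m) ∧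
      (∀ y, κ y = c' → κ (s y) = c ∧ ρ (s y) = n) := by
  have h0 : {p : C × C | ∃ x, ρ x = n ∧ ρ (s x) = m ∧ p = (κ x, κ (s x))} =
      (fun x => (κ x, κ (s x))) '' {x | ρ x = n ∧ ρ (s x) = m} := by
    ext p
    constructor
    · rintro ⟨x, h1, h2, h3⟩
      exact ⟨x, ⟨h1, h2⟩, h3.symm⟩
    · rintro ⟨x, ⟨h1, h2⟩, h3⟩
      exact ⟨x, h1, h2, h3.symm⟩
  rw [h0] at h
  obtain ⟨U, hU, hlim⟩ := exists_ultrafilter_image h
  have hU' : ∀ᶠ x' in (U : Filter X), ρ x' = n ∧ ρ (s x') = m := hU
  have hl1 : Tendsto (fun x' => κ x') U (𝓝 c) := by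
    have := (continuous_fst.tendsto (c, c')).comp hlim
    exact this
  have hl2 : Tendsto (fun x' => κ (s x')) U (𝓝 c') := by
    have := (continuous_snd.tendsto (c, c')).comp hlim
    exact this
  constructor
  · rintro x rfl
    have h1 : Tendsto (fun x' : X => x') U (𝓝 x) := by
      rw [hκ.tendsto_nhds_iff]
      exact hl1
    have h2 : Tendsto (fun x' : X => s x') U (𝓝 (s x)) := (hs.tendsto x).comp h1
    refine ⟨tendsto_nhds_unique ((hκ.continuous.tendsto _).comp h2) hl2, ?_⟩
    obtain ⟨x', h3, h4⟩ := ((eventually_eq_of_tendsto hρ h2).and hU').exists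
    rw [← h3, h4.2]
  · rintro y rfl
    have h1 : Tendsto (fun x' : X => s x') U (𝓝 y) := by
      rw [hκ.tendsto_nhds_iff]
      exact hl2
    have h2 : Tendsto (fun x' : X => x') U (𝓝 (s y)) := by
      have h3 := (hs.tendsto y).comp h1
      refine Tendsto.congr (fun x' => ?_) h3
      exact hinv x'
    refine ⟨tendsto_nhds_unique ((hκ.continuous.tendsto _).comp h2) hl1, ?_⟩
    obtain ⟨x', h3, h4⟩ := ((eventually_eq_of_tendsto hρ h2).and hU').exists
    rw [← h3, h4.1]

/-- The remainder of a compactification. -/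
theorem remainder {B K : Type} [TopologicalSpace B] [TopologicalSpace K] {φ : B → K}
    (hφ : IsEmbedding φ) (hc : (closure (range φ) \ range φ).Countable) {q : X → B}
    (hq : IsClosedEmbedding q) {S : Set X} (hS : IsClosed S) :
    (closure ((fun x => φ (q x)) '' S) \ ((fun x => φ (q x)) '' S)).Countable := by
  refine hc.mono ?_
  rintro k ⟨hk, hk'⟩
  have h1 : (fun x => φ (q x)) '' S = φ '' (q '' S) := by
    rw [image_image]
  rw [h1] at hk hk'
  refine ⟨closure_mono (image_subset_range _ _) hk, ?_⟩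
  rintro ⟨b, rfl⟩
  apply hk'
  have h2 : IsClosed (q '' S) := hq.isClosedMap S hS
  have h3 : b ∈ closure (q '' S) := by
    rw [hφ.closure_eq_preimage_closure_image]
    exact hk
  rw [h2.closure_eq] at h3
  exact ⟨b, h3, rfl⟩

end limits

theorem t_FIB : S_BC → S_ZD → S_CPT → S_FIB := by
  intro hBC hZD hCPT X _ _ s hs hinv E hE hEs hinf
  classical
  obtain ⟨ρ, g, hρ, hg, hg0, hg1⟩ := hBC X s hs hinv E hE hEs hinf
  have hfin : ∀ n y, {x | ρ x = 0 ∧ g n x = y}.Finite := by
    intro n y
    by_cases hy : ρ y = n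
    · exact (hg1 n y hy).1
    · have : {x | ρ x = 0 ∧ g n x = y} = ∅ := by
        ext x
        simp only [mem_ofPred_eq, mem_empty_iff_false, iff_false]
        rintro ⟨h1, h2⟩
        apply hy
        rw [← h2]
        exact (hg0 n x h1).1
      rw [this]
      exact Set.finite_empty
  choose I hIm hIg using fun n => exists_index s hs ρ hρ (g n) (hg n)
    (fun x hx => (hEs x (g n x)).1 (hg0 n x hx).2)
  choose N hNm hNg using fun n => exists_bound s hs hinv ρ hρ (g n) (hg n) (I n) (hIm n) (hIg n)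
    (hfin n)
  let h : X → ℕ → ℕ := fun x j => if j.unpair.1 = 0 then ρ x else
    if j.unpair.1 = 1 then N j.unpair.2 x else I j.unpair.2 x
  have hh : Measurable h := by
    refine measurable_pi_lambda _ fun j => ?_
    show Measurable fun x => if j.unpair.1 = 0 then ρ x else
      if j.unpair.1 = 1 then N j.unpair.2 x else I j.unpair.2 x
    split_ifs
    · exact hρ
    · exact hNm _
    · exact hIm _
  obtain ⟨t, q, hst, hht, hqm, hq⟩ := hZD X s hs h hh
  obtain ⟨K, _, _, _, φ, hφ, hrem⟩ := hCPT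
  let _ := t
  have hρt : Continuous ρ := by
    have := (continuous_apply (Nat.pair 0 0)).comp hht
    refine this.congr fun x => ?_
    simp [h]
  have hNt : ∀ n, Continuous (N n) := by
    intro n
    have := (continuous_apply (Nat.pair 1 n)).comp hht
    refine this.congr fun x => ?_
    simp [h]
  have hIt : ∀ n, Continuous (I n) := by
    intro n
    have := (continuous_apply (Nat.pair 2 n)).comp hht
    refine this.congr fun x => ?_
    simp [h]
  let κ : X → K × Bool := fun x => (φ (q x), false)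
  have hκe : IsEmbedding κ := by
    have h1 : IsEmbedding (fun k : K => (k, false)) := by
      exact Topology.IsEmbedding.of_comp (by fun_prop) continuous_fst IsEmbedding.id
    exact h1.comp (hφ.comp hq.isEmbedding)
  letI : MeasurableSpace (K × Bool) := borel _
  haveI : BorelSpace (K × Bool) := ⟨rfl⟩
  have hκm : Measurable κ := by
    have h1 : Continuous fun a : ℕ → ℕ => (φ a, false) := by
      exact hφ.continuous.prodMk continuous_const
    exact h1.measurable.comp hqm
  let c0 : K := φ 0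
  let f : X → ℕ → K × Bool := fun x n => κ (g n x)
  let Λ : Set (ℕ → K × Bool) := closure (f '' {x | ρ x = 0}) ∪ {fun _ => (c0, true)}
  have hmem : ∀ l ∈ Λ, (∀ n, l n = (c0, true)) ∨ l ∈ closure (f '' {x | ρ x = 0}) := by
    rintro l (hl | hl)
    · exact Or.inr hl
    · refine Or.inl fun n => ?_
      rw [mem_singleton_iff] at hl
      rw [hl]
  refine ⟨K × Bool, inferInstance, inferInstance, inferInstance, inferInstance, inferInstance,
    ρ, κ, Λ, hρ, hκm, hκe.injective, isClosed_closure.union isClosed_singleton, ?_, ?_, ?_, ?_, ?_⟩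
  · intro x
    obtain ⟨x', h1, h2⟩ := (hg1 (ρ x) x rfl).2
    refine ⟨f x', Or.inl (subset_closure ⟨x', h1, rfl⟩), ?_⟩
    show κ (g (ρ x) x') = κ x
    rw [h2]
  · intro n x
    obtain ⟨x', h1, h2⟩ := (hg1 (ρ x) x rfl).2
    refine ⟨g n x', ?_, (hg0 n x' h1).1⟩
    have h3 : E x' x := by
      have := (hg0 (ρ x) x' h1).2
      rw [h2] at this
      exact this
    exact hE.trans (hE.symm h3) (hg0 n x' h1).2
  · intro n
    constructor
    · have h1 := remainder hφ hrem hq (S := {x | ρ x = n}) ((isClosed_singleton (x := n)).preimage hρt)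
      refine (((h1.image fun k : K => (k, false)).union (countable_singleton (c0, true)))).mono ?_
      rintro c ⟨⟨l, hl, rfl⟩, hc⟩
      rcases hmem l hl with h2 | h2
      · right
        rw [mem_singleton_iff]
        exact h2 n
      · left
        -- `l n` is in the closure of the codes of the points with `ρ = n`
        have h3 : l n ∈ closure (κ '' {x | ρ x = n}) := by
          obtain ⟨U, hU, hlim⟩ := exists_ultrafilter_image h2
          have hU' : ∀ᶠ x' in (U : Filter X), ρ x' = 0 := hU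
          have h4 : Tendsto (fun x' => κ (g n x')) U (𝓝 (l n)) := (tendsto_pi_nhds.1 hlim) n
          refine mem_closure_of_tendsto h4 ?_
          filter_upwards [hU'] with x' hx'
          exact ⟨g n x', (hg0 n x' hx').1, rfl⟩
        have h5 : (l n).2 = false := by
          have h6 : closure (κ '' {x | ρ x = n}) ⊆ {c : K × Bool | c.2 = false} := by
            refine closure_minimal ?_ (isClosed_eq continuous_snd continuous_const)
            rintro _ ⟨x, -, rfl⟩
            rfl
          exact h6 h3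
        have h7 : (l n).1 ∈ closure ((fun x => φ (q x)) '' {x | ρ x = n}) := by
          have h8 := image_closure_subset_closure_image (s := κ '' {x | ρ x = n})
            (continuous_fst (X := K) (Y := Bool)) ⟨l n, h3, rfl⟩
          rw [image_image] at h8
          exact h8
        refine ⟨(l n).1, ⟨h7, ?_⟩, ?_⟩
        · rintro ⟨x, hx, hx'⟩
          refine hc x hx ?_
          show (φ (q x), false) = l n
          exact Prod.ext hx' h5.symm
        · exact Prod.ext rfl h5.symm
    · refine ⟨(c0, true), ⟨fun _ => (c0, true), Or.inr rfl, rfl⟩, fun x _ hx => ?_⟩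
      have := congrArg Prod.snd hx
      simp [κ] at this
  · intro l hl n m x hx hxl
    rcases hmem l hl with h2 | h2
    · exfalso
      have h3 := (hxl.trans (h2 n))
      have := congrArg Prod.snd h3
      simp [κ] at this
    · obtain ⟨i, h3, h4⟩ := seq_limit hκe hst hinv hρt hNt hIt hIg hNg h2 n hxl
      refine ⟨g m (s i x), ?_, (hg0 m _ h3).1, h4 m⟩
      exact hE.trans ((hEs x (s i x)).2 ⟨i, rfl⟩) (hg0 m _ h3).2
  · intro n m k c c' hcc
    have h1 := pair_limit hκe (hst k) (hinv k) hρt hcc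
    exact ⟨fun x _ hx => h1.1 x hx, fun y _ hy => h1.2 y hy⟩

end Pool.Agent.U61.KS
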